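import Pool.Agent.R267.QLor3

set_option autoImplicit false

/-!
# MP_c4013e_an, Q1: a quasi-Banach space with a bidemocratic basis and no `p`-normable
infinite-dimensional subspace
-/

namespace Pool.Agent.Results.MP_c4013e_an.NoPNormableSubspace

/-- `q` is a quasi-norm on `X` and `X` is complete for it -/
structure IsQuasiBanach (𝕜 : Type) [RCLike 𝕜] {X : Type} [AddCommGroup X] [Module 𝕜 X]
    (q : X → ℝ) : Prop where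
  nonneg : ∀ x, 0 ≤ q x
  eq_zero : ∀ x, q x = 0 → x = 0
  smul : ∀ (c : 𝕜) (x : X), q (c • x) = ‖c‖ * q x
  quasi_triangle : ∃ κ : ℝ, 1 ≤ κ ∧ ∀ x y, q (x + y) ≤ κ * (q x + q y)
  complete : ∀ u : ℕ → X, (∀ ε : ℝ, 0 < ε → ∃ N, ∀ m, N ≤ m → ∀ n, N ≤ n → q (u m - u n) < ε) →
    ∃ y, ∀ ε : ℝ, 0 < ε → ∃ N, ∀ n, N ≤ n → q (u n - y) < ε

/-- `x` is a basis of `(X, q)` with coordinate functionals `xs` -/
structure IsBasis {𝕜 : Type} [RCLike 𝕜] {X : Type} [AddCommGroup X] [Module 𝕜 X]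
    (q : X → ℝ) (x : ℕ → X) (xs : ℕ → X →ₗ[𝕜] 𝕜) : Prop where
  dense : ∀ (y : X) (ε : ℝ), 0 < ε → ∃ z ∈ Submodule.span 𝕜 (Set.range x), q (y - z) < ε
  biorth : ∀ k n, xs k (x n) = if k = n then 1 else 0
  lower : ∃ c : ℝ, 0 < c ∧ ∀ n, c ≤ q (x n)
  upper : ∃ C : ℝ, ∀ n, q (x n) ≤ C
  dual_upper : ∃ C : ℝ, ∀ n y, ‖xs n y‖ ≤ C * q y

/-- `φ(m) φ*(m) / m` is bounded: for all finite sets `A`, `B` of cardinality at most `m`, the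
product of the quasi-norm of the sum of the `x n` over `A` and the dual norm of the sum of the
`xs n` over `B` is at most `C m` -/
def Bidemocratic {𝕜 : Type} [RCLike 𝕜] {X : Type} [AddCommGroup X] [Module 𝕜 X]
    (q : X → ℝ) (x : ℕ → X) (xs : ℕ → X →ₗ[𝕜] 𝕜) : Prop :=
  ∃ C : ℝ, ∀ m : ℕ, 1 ≤ m → ∀ A B : Finset ℕ, A.card ≤ m → B.card ≤ m → ∀ y : X,
    q (∑ n ∈ A, x n) * ‖∑ n ∈ B, xs n y‖ ≤ C * m * q y

/-- the subspace `Y` of `(X, q)` has an equivalent `p`-norm `N` -/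
def HasEquivalentPNorm {𝕜 : Type} [RCLike 𝕜] {X : Type} [AddCommGroup X] [Module 𝕜 X]
    (q : X → ℝ) (p : ℝ) (Y : Submodule 𝕜 X) : Prop :=
  ∃ N : Y → ℝ, (∀ y, 0 ≤ N y) ∧ (∀ y, N y = 0 → y = 0) ∧
    (∀ (c : 𝕜) (y : Y), N (c • y) = ‖c‖ * N y) ∧
    (∀ y z, N (y + z) ^ p ≤ N y ^ p + N z ^ p) ∧
    ∃ C : ℝ, 1 ≤ C ∧ ∀ y : Y, C⁻¹ * q (y : X) ≤ N y ∧ N y ≤ C * q (y : X)

open Pool.Agent.R267 in
/-- **MP_c4013e_an, Q1 (negated form).**  For every scalar field and every `0 < r < 1` there is an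
infinite-dimensional quasi-Banach space with a bidemocratic basis such that, for every `p > r`, no
infinite-dimensional subspace (closed or not) has an equivalent `p`-norm. -/
theorem result (𝕜 : Type) [RCLike 𝕜] (r : ℝ) (hr : 0 < r) (hr1 : r < 1) :
    ∃ (X : Type) (_ : AddCommGroup X) (_ : Module 𝕜 X) (q : X → ℝ),
      IsQuasiBanach 𝕜 q ∧ ¬ FiniteDimensional 𝕜 X ∧
      (∃ (x : ℕ → X) (xs : ℕ → X →ₗ[𝕜] 𝕜), IsBasis q x xs ∧ Bidemocratic q x xs) ∧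
      ∀ Y : Submodule 𝕜 X, ¬ FiniteDimensional 𝕜 Y → ∀ p : ℝ, r < p → p ≤ 1 →
        ¬ HasEquivalentPNorm q p Y := by
  classical
  refine ⟨QL.LL 𝕜 hr hr1, inferInstance, inferInstance, fun x => QL.qn r (x : ℕ → 𝕜), ?_,
    QL.infinite_dim hr hr1, ?_, ?_⟩
  · refine ⟨fun x => QL.qn_nonneg (QL.LL_bdd hr hr1 x.2), fun x hx => ?_, fun c x => ?_,
      ⟨2 ^ (1 / r), ?_, fun x y => ?_⟩, QL.complete hr hr1⟩
    · exact Subtype.ext (QL.eq_zero_of_qn hr (QL.LL_bdd hr hr1 x.2) hx)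
    · exact QL.qn_smul hr (QL.LL_bdd hr hr1 x.2) c
    · exact Real.one_le_rpow (by norm_num) (by positivity)
    · exact QL.qn_add hr hr1 (QL.LL_bdd hr hr1 x.2) (QL.LL_bdd hr hr1 y.2)
  · have hone : ∀ n, QL.qn r ((QL.ev (𝕜 := 𝕜) hr hr1 n : QL.LL 𝕜 hr hr1) : ℕ → 𝕜) ≤ 1 := by
      intro n
      have h := QL.qn_ind_le (𝕜 := 𝕜) hr hr1 {n}
      simpa using h
    have happ : ∀ k n, ((QL.ev (𝕜 := 𝕜) hr hr1 n : QL.LL 𝕜 hr hr1) : ℕ → 𝕜) k =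
        if k = n then 1 else 0 := by
      intro k n
      have h : ((QL.ev (𝕜 := 𝕜) hr hr1 n : QL.LL 𝕜 hr hr1) : ℕ → 𝕜) = Pi.single n 1 := rfl
      rw [h, Pi.single_apply]
    refine ⟨QL.ev hr hr1, fun n => (LinearMap.proj n).comp (QL.LL 𝕜 hr hr1).subtype,
      ⟨QL.dense hr hr1, happ, ⟨1, one_pos, fun n => ?_⟩, ⟨1, hone⟩, ⟨1, fun n y => ?_⟩⟩, 1, ?_⟩
    · have h := QL.norm_le_qn hr (QL.LL_bdd hr hr1 (QL.ev (𝕜 := 𝕜) hr hr1 n).2) n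
      rw [happ, if_pos rfl, norm_one] at h
      exact h
    · rw [one_mul]
      exact QL.norm_le_qn hr (QL.LL_bdd hr hr1 y.2) n
    · intro m hm A B hA hB y
      have h1 := QL.qn_ind_le (𝕜 := 𝕜) hr hr1 A
      have h2 := QL.sum_coord_le hr hr1 y B
      have h3 : (A.card : ℝ) ≤ m := by exact_mod_cast hA
      rw [one_mul]
      exact mul_le_mul (h1.trans h3) h2 (norm_nonneg _) (Nat.cast_nonneg _)
  · rintro Y hY p hp hp1 ⟨N, hN0, -, -, hNadd, C, hC, hN⟩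
    have hC0 : 0 < C := by linarith
    let Y' : Submodule 𝕜 (ℕ → 𝕜) := Y.map (QL.LL 𝕜 hr hr1).subtype
    have hY' : ∀ y ∈ Y', BddAbove (QL.vals r y) := by
      rintro _ ⟨y, _, rfl⟩
      exact QL.LL_bdd hr hr1 y.2
    have hinf : ¬ FiniteDimensional 𝕜 Y' := by
      intro h
      apply hY
      exact Module.Finite.equiv
        (Submodule.equivMapOfInjective (QL.LL 𝕜 hr hr1).subtype
          (QL.LL 𝕜 hr hr1).injective_subtype Y).symm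
    let Np : (ℕ → 𝕜) → ℝ := fun y =>
      if h : ∃ (h1 : y ∈ QL.LL 𝕜 hr hr1), (⟨y, h1⟩ : QL.LL 𝕜 hr hr1) ∈ Y then
        N ⟨⟨y, h.1⟩, h.2⟩ else 0
    have hNp : ∀ y : Y, Np ((y : QL.LL 𝕜 hr hr1) : ℕ → 𝕜) = N y := by
      intro y
      have h : ∃ (h1 : ((y : QL.LL 𝕜 hr hr1) : ℕ → 𝕜) ∈ QL.LL 𝕜 hr hr1),
          (⟨((y : QL.LL 𝕜 hr hr1) : ℕ → 𝕜), h1⟩ : QL.LL 𝕜 hr hr1) ∈ Y := ⟨y.1.2, y.2⟩
      simp only [Np]
      rw [dif_pos h]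
    refine QL.no_pnorm hr hr1 Y' hY' hinf Np p C hp hC0 ?_ ?_ ?_ ?_
    · rintro _ ⟨y, hy, rfl⟩
      have h := hNp ⟨y, hy⟩
      exact le_of_le_of_eq (hN0 ⟨y, hy⟩) h.symm
    · rintro _ ⟨y, hy, rfl⟩ _ ⟨z, hz, rfl⟩
      have h1 := hNp ⟨y, hy⟩
      have h2 := hNp ⟨z, hz⟩
      have h3 := hNp (⟨y, hy⟩ + ⟨z, hz⟩)
      have h4 := hNadd ⟨y, hy⟩ ⟨z, hz⟩
      rw [← h1, ← h2, ← h3] at h4
      exact h4
    · rintro _ ⟨y, hy, rfl⟩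
      have h := hNp ⟨y, hy⟩
      have h2 := (hN ⟨y, hy⟩).2
      rw [← h] at h2
      exact h2
    · rintro _ ⟨y, hy, rfl⟩
      have h := hNp ⟨y, hy⟩
      have h2 := (hN ⟨y, hy⟩).1
      rw [← h, inv_mul_le_iff₀ hC0] at h2
      exact h2

end Pool.Agent.Results.MP_c4013e_an.NoPNormableSubspace
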